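import Pool.Agent.Helper16.Wheel.Main

/-! The generator degree of the toric ideals of the matching polytopes of all wheel graphs.
Definitions are in `Pool/Agent/Helper16/Wheel/Defs.lean`. -/

namespace Pool.Agent.Results.MP_f06cb2_co.WheelOmega

open Pool.Agent.Helper16.Wheel

/-- `ω(I_{M_{W_d}})` is `2` for even `d` and `4` for odd `d`, for all `d ≥ 4` and all fields. -/
theorem result (K : Type*) [Field K] (d : ℕ) (hd : 4 ≤ d) :
    HasOmega (toricIdeal K (wheel d)) (if Even d then 2 else 4) :=
  main K d hd

end Pool.Agent.Results.MP_f06cb2_co.WheelOmega
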